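import Pool.Agent.W206.YP.Stm

/-!
# TRC: splitting off powers of the diagonal `X 0 - X 1`
-/

set_option autoImplicit false

namespace Pool.Agent.W810.YP.TRC

open MvPolynomial Pool.Agent.W206.YP

section Gen

variable {k : Type} [Field k]

/-- restriction to the diagonal -/
noncomputable def dg : MvPolynomial (Fin 2) k →ₐ[k] Polynomial k :=
  MvPolynomial.aeval (fun _ => Polynomial.X)

theorem dvd_of_dg (Q : MvPolynomial (Fin 2) k) (h : dg Q = 0) :
    (X 0 - X 1 : MvPolynomial (Fin 2) k) ∣ Q := by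
  rw [← Ideal.mem_span_singleton, ← Ideal.Quotient.eq_zero_iff_mem]
  have key : (Ideal.Quotient.mkₐ k (Ideal.span {(X 0 - X 1 : MvPolynomial (Fin 2) k)})) =
      ((Ideal.Quotient.mkₐ k (Ideal.span {(X 0 - X 1 : MvPolynomial (Fin 2) k)})).comp
        (Polynomial.aeval (X 1 : MvPolynomial (Fin 2) k))).comp dg := by
    apply MvPolynomial.algHom_ext
    intro i
    have h01 : (Ideal.Quotient.mkₐ k (Ideal.span {(X 0 - X 1 : MvPolynomial (Fin 2) k)}))
        (X 0) = (Ideal.Quotient.mkₐ k (Ideal.span {(X 0 - X 1 : MvPolynomial (Fin 2) k)}))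
        (X 1) := by
      rw [Ideal.Quotient.mkₐ_eq_mk, Ideal.Quotient.eq]
      exact Ideal.mem_span_singleton_self _
    fin_cases i
    · simpa [dg] using h01
    · simp [dg]
  have h2 := congrArg (fun φ => φ Q) key
  simp only [AlgHom.comp_apply, h, map_zero] at h2
  simpa using h2

theorem not_isUnit : ¬ IsUnit (X 0 - X 1 : MvPolynomial (Fin 2) k) := by
  intro h
  have h2 := h.map (dg : MvPolynomial (Fin 2) k →ₐ[k] Polynomial k)
  simp [dg] at h2

theorem main_gen {L : Type} [Field L] [Algebra k L] (F : MvPolynomial (Fin 2) k) (x : L)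
    (hF : F ≠ 0) (hx : Transcendental k x) :
    ∃ (e : ℕ) (Q : MvPolynomial (Fin 2) k), F = (X 0 - X 1) ^ e * Q ∧ aeval ![x, x] Q ≠ 0 := by
  have hfin : FiniteMultiplicity (X 0 - X 1 : MvPolynomial (Fin 2) k) F :=
    FiniteMultiplicity.of_not_isUnit not_isUnit hF
  obtain ⟨Q, hQ, hnd⟩ := hfin.exists_eq_pow_mul_and_not_dvd
  refine ⟨_, Q, hQ, fun h0 => hnd (dvd_of_dg Q ?_)⟩
  have hc : (aeval ![x, x] : MvPolynomial (Fin 2) k →ₐ[k] L) =
      (Polynomial.aeval x).comp dg := by
    apply MvPolynomial.algHom_ext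
    intro i
    fin_cases i <;> simp [dg]
  have h1 : Polynomial.aeval x (dg Q) = 0 := by
    rw [← AlgHom.comp_apply, ← hc]; exact h0
  exact (transcendental_iff.1 hx) _ h1

end Gen

/-- **TRC** -/
theorem main : S_TRC := fun F x hF hx => main_gen F x hF hx

end Pool.Agent.W810.YP.TRC
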